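import Pool.Agent.Helper327_Drum.Fin.AS20

/-! A partial answer to Q1 of MP_d92c84_an: many eigenvalues lie below the frequencies of a drum solution whose
gradient vanishes along closed curves. -/

set_option autoImplicit false

namespace Pool.Agent.Results.MP_d92c84_an.CurveCount

open Pool.Agent.Helper327_Drum

/-- Let the gradient of the drum solution `z` on the simple closed curve `R` vanish at all times along `l` different
simple closed curves in the closed region, let `M` be a nonempty set of them such that no curve lies inside a curve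
of `M`, and let `m + 1` eigenvalues `lam 0 < ... < lam m` occur in `z`. Then the curves do not touch `R`, and
`lam m` is larger than the Dirichlet eigenvalue number `3 l (m + 1) + m + 2 |M|` of the region enclosed by `R`
(counted with multiplicity). For `l = 1`, `m = 0` this is the fifth eigenvalue. In general, at most one in `3 l + 1`
of the eigenvalues up to `lam m` occurs in `z`. -/
theorem result {R : Set ℂ} {c : ℝ} {z : ℂ → ℝ → ℝ} {g : ℂ → ℝ → ℂ} (hR : SimpleClosedCurve R)
    (hc : 0 < c) (hz : DrumSolution R c z g) {l : ℕ} (γ : Fin l → Set ℂ)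
    (hinj : Function.Injective γ) (hγ : ∀ i, SimpleClosedCurve (γ i))
    (hS : ∀ i, γ i ⊆ still R g) (M : Finset (Fin l)) (hM0 : M.Nonempty)
    (hM : ∀ i ∈ M, ∀ j, ¬ γ j ⊆ inside (γ i)) {m : ℕ} (lam : Fin (m + 1) → ℝ)
    (hmono : StrictMono lam) (hE : ∀ j, Excites R z (lam j)) :
    (∀ i, γ i ⊆ inside R) ∧
      dirichletEigenvalue (3 * l * (m + 1) + m + 2 * M.card) (inside R) < lam (Fin.last m) := by
  refine ⟨fun i => ?_, curve_freq_all hR hc hz γ hinj hγ hS M hM0 hM lam hmono hE⟩
  obtain ⟨hlam, u, hm⟩ := mode_of_excites (scc_basic hR).1 hc hz (hE 0)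
  exact (hm.const_curve hR hlam (hγ i) (fun x hx => (hS i hx).1) fun x hx => (hS i hx).2).1

end Pool.Agent.Results.MP_d92c84_an.CurveCount
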