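import Pool.Agent.Helper327_Drum.Fin.AS6

/-! A partial answer to Q1 of MP_d92c84_an: drum solutions with infinitely many frequencies. -/

set_option autoImplicit false
open Filter Topology

namespace Pool.Agent.Results.MP_d92c84_an.ManyFrequencies

open Pool.Agent.Helper327_Drum

/-- Q1 is true, even with arcs instead of closed curves, for every drum solution with infinitely many frequencies: let
`z` be a drum solution on the simple closed curve `R` in which infinitely many Dirichlet eigenvalues of the region
occur, and suppose that its gradient vanishes at all times on a connected set with more than one point of the closed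
region (a closed curve or an arc), or on a set of points that accumulates in the open region. Then `R` is a circle, `z`
is rotationally symmetric about its centre, the gradient vanishes along a concentric smaller circle, and all closed
curves along which it vanishes are concentric circles. -/
theorem result {R : Set ℂ} {c : ℝ} {z : ℂ → ℝ → ℝ} {g : ℂ → ℝ → ℂ} (hR : SimpleClosedCurve R)
    (hc : 0 < c) (hz : DrumSolution R c z g) (hS : NotDiscrete R g)
    (hinf : {lam : ℝ | Excites R z lam}.Infinite) :
    ∃ (p : ℂ) (r ρ : ℝ), 0 < r ∧ r < ρ ∧ R = Metric.sphere p ρ ∧
      (∀ x ∈ Metric.sphere p r, ∀ t, g x t = 0) ∧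
      (∀ γ : Set ℂ, SimpleClosedCurve γ → γ ⊆ still R g → ∃ r, 0 < r ∧ γ = Metric.sphere p r) ∧
      ∀ x ∈ Metric.closedBall p ρ, ∀ y ∈ Metric.closedBall p ρ, ‖x - p‖ = ‖y - p‖ →
        ∀ t, z x t = z y t :=
  infinite_freq_acc hR hc hz hS hinf

end Pool.Agent.Results.MP_d92c84_an.ManyFrequencies
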