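import Pool.Agent.Helper327_Drum.Fin.AS6

/-! A partial answer to Q1 of MP_d92c84_an: drums near a circle, at all bounded frequencies. -/

set_option autoImplicit false
open Filter Topology

namespace Pool.Agent.Results.MP_d92c84_an.NearCircle

open Pool.Agent.Helper327_Drum

/-- For every `T > 0` there is `ε ∈ (0,1)` such that Q1 is true for every simple closed curve `R` that lies in a ring
`(1 - ε) a ≤ |x - q| ≤ (1 + ε) a` and encloses its centre `q`, and every drum solution on `R` in which an eigenvalue
`lam` with `√lam * a ≤ T` occurs: if the gradient vanishes at all times along a simple closed curve in the closed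
region (or on a connected set with more than one point, or on a set of points that accumulates in the open region),
then `R` is a circle, `z` is rotationally symmetric, and all closed curves of vanishing gradient are concentric
circles. -/
theorem result (T : ℝ) (hT : 0 < T) : ∃ ε : ℝ, 0 < ε ∧ ε < 1 ∧
    ∀ (R : Set ℂ) (c : ℝ) (z : ℂ → ℝ → ℝ) (g : ℂ → ℝ → ℂ) (q : ℂ) (a lam : ℝ),
      SimpleClosedCurve R → 0 < c → DrumSolution R c z g → 0 < a → q ∈ inside R →
      (∀ x ∈ R, (1 - ε) * a ≤ ‖x - q‖ ∧ ‖x - q‖ ≤ (1 + ε) * a) →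
      Excites R z lam → √lam * a ≤ T → NotDiscrete R g →
      ∃ (p : ℂ) (ρ : ℝ), 0 < ρ ∧ R = Metric.sphere p ρ ∧
        (∀ γ : Set ℂ, SimpleClosedCurve γ → γ ⊆ still R g → ∃ r, 0 < r ∧ γ = Metric.sphere p r) ∧
        ∀ x ∈ Metric.closedBall p ρ, ∀ y ∈ Metric.closedBall p ρ, ‖x - p‖ = ‖y - p‖ →
          ∀ t, z x t = z y t :=
  near_circle T hT

end Pool.Agent.Results.MP_d92c84_an.NearCircle
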