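import Pool.Agent.Helper327_Drum.Fin.AS21

/-! A partial answer to Q1 of MP_d92c84_an: drums near the regions in which the Helmholtz equation can be solved by
separation of variables. -/

set_option autoImplicit false

namespace Pool.Agent.Results.MP_d92c84_an.SolvableShapes

open Pool.Agent.Helper327_Drum

/-- Let `K` be a rectangle, a triangle with angles `90°, 45°, 45°`, or `60°, 60°, 60°`, or `90°, 60°, 30°`, or a sector
with opening angle `π / N`; or let `K` be an ellipse, a half of an ellipse, a sector, or a coordinate rectangle for
which the Helmholtz equation separates, and let the eigenvalues of `K` in the closed set `Λ` be simple. Then for every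
`T > 0` there is `ε > 0` such that Q1 is true for all simple closed curves `R` that enclose a region `ε`-near to `K`
(for example `K` itself) and for all drum solutions on `R` in which an eigenvalue `lam ∈ Λ`, `lam ≤ T` occurs: their
gradient does not vanish at all times along a closed curve or any connected set with more than one point in the
closed region, and the points at which it vanishes at all times do not accumulate in the open region. -/
theorem result {K : Set ℂ} {Λ : Set ℝ} (hΛ : IsClosed Λ)
    (hK : FirstKind K ∨ SecondKind K ∧ ∀ lam ∈ Λ, SimpleEigenvalue K lam) {T : ℝ} (hT : 0 < T) :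
    ∃ ε : ℝ, 0 < ε ∧ ∀ (R : Set ℂ) (c : ℝ) (z : ℂ → ℝ → ℝ) (g : ℂ → ℝ → ℂ) (lam : ℝ),
      SimpleClosedCurve R → 0 < c → DrumSolution R c z g →
      {x | Metric.closedBall x ε ⊆ K} ⊆ inside R → inside R ⊆ Metric.thickening ε K →
      Excites R z lam → lam ∈ Λ → lam ≤ T → ¬ NotDiscrete R g :=
  near_solvable hΛ (hK.imp first_special (And.imp_left second_separable)) hT

end Pool.Agent.Results.MP_d92c84_an.SolvableShapes
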